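import Mathlib.Data.Nat.Choose.Multinomial
import Mathlib.Algebra.Order.BigOperators.Ring.Finset
import Mathlib.Algebra.Order.Antidiag.Pi
import Mathlib.Data.Real.Basic
import Mathlib.Tactic

/-!
# A trinomial inequality

For `S = X² + XY + Y²` all coefficients of `(N + 2) S^N - 3 N X Y S^(N-1)` are nonnegative.
-/

set_option autoImplicit false

namespace Pool.Agent.R770.NS

open Finset

/-- triples with sum `N` -/
abbrev KK (N : ℕ) : Finset (Fin 3 → ℕ) := piAntidiag (univ : Finset (Fin 3)) N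

theorem mem_KK {N : ℕ} {k : Fin 3 → ℕ} : k ∈ KK N ↔ k 0 + k 1 + k 2 = N := by
  rw [mem_piAntidiag]
  simp [Fin.sum_univ_three]

/-- weights -/
noncomputable def ww (N : ℕ) (k : Fin 3 → ℕ) : ℝ :=
  N.factorial / ((k 0).factorial * (k 1).factorial * (k 2).factorial)

theorem ww_nonneg (N : ℕ) (k : Fin 3 → ℕ) : 0 ≤ ww N k := by
  unfold ww
  positivity

theorem ww_multi {N : ℕ} {k : Fin 3 → ℕ} (hk : k ∈ KK N) :
    (Nat.multinomial univ k : ℝ) = ww N k := by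
  have h := Nat.multinomial_spec (univ : Finset (Fin 3)) k
  rw [(mem_piAntidiag.mp hk).1, Fin.prod_univ_three] at h
  have h' : ((k 0).factorial * (k 1).factorial * (k 2).factorial : ℝ) *
      (Nat.multinomial univ k : ℝ) = N.factorial := by exact_mod_cast h
  have h0 : (0 : ℝ) < (k 0).factorial * (k 1).factorial * (k 2).factorial := by positivity
  unfold ww
  rw [eq_div_iff h0.ne', ← h']
  ring

/-- raising the last index -/
def up (k : Fin 3 → ℕ) : Fin 3 → ℕ := ![k 0, k 1, k 2 + 1]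

theorem ww_up (N : ℕ) (k : Fin 3 → ℕ) :
    ((up k 2 : ℕ) : ℝ) * ww (N + 1) (up k) = ((N + 1 : ℕ) : ℝ) * ww N k := by
  have e0 : up k 0 = k 0 := rfl
  have e1 : up k 1 = k 1 := rfl
  have e2 : up k 2 = k 2 + 1 := rfl
  unfold ww
  rw [e0, e1, e2, Nat.factorial_succ (k 2), Nat.factorial_succ N]
  push_cast
  field_simp

/-- the shift -/
def sh (k : Fin 3 → ℕ) : Fin 3 → ℕ := ![k 0 + 1, k 1 + 1, k 2 - 2]

theorem ww_sh (N : ℕ) (k : Fin 3 → ℕ) (h : 2 ≤ k 2) :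
    (k 2 : ℝ) * ((k 2 : ℝ) - 1) * ww N k =
      ((sh k 0 : ℕ) : ℝ) * ((sh k 1 : ℕ) : ℝ) * ww N (sh k) := by
  have e0 : sh k 0 = k 0 + 1 := rfl
  have e1 : sh k 1 = k 1 + 1 := rfl
  have e2 : sh k 2 = k 2 - 2 := rfl
  obtain ⟨j, hj⟩ : ∃ j, k 2 = j + 2 := ⟨k 2 - 2, by omega⟩
  unfold ww
  rw [e0, e1, e2, hj, show j + 2 - 2 = j by omega, Nat.factorial_succ (k 0),
    Nat.factorial_succ (k 1), Nat.factorial_succ (j + 1), Nat.factorial_succ j]
  push_cast
  have h1 : ((j : ℝ) + 2 - 1) = j + 1 := by ring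
  rw [h1]
  field_simp
  ring

/-- the fibres -/
def fib (N p : ℕ) : Finset (Fin 3 → ℕ) := {k ∈ KK N | 2 * k 0 + k 2 = p}

theorem mem_fib {N p : ℕ} {k : Fin 3 → ℕ} :
    k ∈ fib N p ↔ k 0 + k 1 + k 2 = N ∧ 2 * k 0 + k 2 = p := by
  rw [fib, mem_filter, mem_KK]

theorem shift_sum (N p : ℕ) : ∑ k ∈ fib N p, (k 2 : ℝ) * ((k 2 : ℝ) - 1) * ww N k =
    ∑ k ∈ fib N p, (k 0 : ℝ) * (k 1 : ℝ) * ww N k := by
  have h1 : ∑ k ∈ fib N p, (k 2 : ℝ) * ((k 2 : ℝ) - 1) * ww N k =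
      ∑ k ∈ fib N p with 2 ≤ k 2, (k 2 : ℝ) * ((k 2 : ℝ) - 1) * ww N k := by
    symm
    refine sum_subset (filter_subset _ _) fun k hk hk' => ?_
    have h2 : k 2 < 2 := by
      by_contra hc
      exact hk' (mem_filter.mpr ⟨hk, not_lt.mp hc⟩)
    interval_cases h : k 2 <;> simp
  have h2 : ∑ k ∈ fib N p, (k 0 : ℝ) * (k 1 : ℝ) * ww N k =
      ∑ k ∈ fib N p with 1 ≤ k 0 ∧ 1 ≤ k 1, (k 0 : ℝ) * (k 1 : ℝ) * ww N k := by
    symm
    refine sum_subset (filter_subset _ _) fun k hk hk' => ?_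
    by_cases h0 : k 0 = 0
    · rw [h0]; simp
    · have h3 : k 1 = 0 := by
        by_contra hc
        exact hk' (mem_filter.mpr ⟨hk, by omega, by omega⟩)
      rw [h3]; simp
  rw [h1, h2]
  refine sum_bij' (fun k _ => sh k) (fun k _ => ![k 0 - 1, k 1 - 1, k 2 + 2]) ?_ ?_ ?_ ?_ ?_
  · intro k hk
    rw [mem_filter, mem_fib] at hk ⊢
    have e0 : sh k 0 = k 0 + 1 := rfl
    have e1 : sh k 1 = k 1 + 1 := rfl
    have e2 : sh k 2 = k 2 - 2 := rfl
    rw [e0, e1, e2]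
    omega
  · intro k hk
    rw [mem_filter, mem_fib] at hk ⊢
    simp only [Matrix.cons_val_zero, Matrix.cons_val_one, Matrix.cons_val]
    omega
  · intro k hk
    rw [mem_filter, mem_fib] at hk
    funext i
    fin_cases i <;> simp [sh] <;> omega
  · intro k hk
    rw [mem_filter, mem_fib] at hk
    funext i
    fin_cases i <;> simp [sh] <;> omega
  · intro k hk
    rw [mem_filter, mem_fib] at hk
    exact ww_sh N k hk.2

/-- moments -/
noncomputable def mo (N p j : ℕ) : ℝ := ∑ k ∈ fib N p, (k 2 : ℝ) ^ j * ww N k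

theorem mo_nonneg (N p j : ℕ) : 0 ≤ mo N p j :=
  sum_nonneg fun k _ => mul_nonneg (by positivity) (ww_nonneg N k)

theorem mo_rel (N p : ℕ) : 3 * mo N p 2 + (2 * N - 4) * mo N p 1 =
    (p * (2 * N - p) : ℝ) * mo N p 0 := by
  have h := shift_sum N p
  have h1 : ∑ k ∈ fib N p, (k 2 : ℝ) * ((k 2 : ℝ) - 1) * ww N k = mo N p 2 - mo N p 1 := by
    unfold mo
    rw [← sum_sub_distrib]
    refine sum_congr rfl fun k _ => ?_
    ring
  have h2 : ∑ k ∈ fib N p, (k 0 : ℝ) * (k 1 : ℝ) * ww N k =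
      1 / 4 * ((p * (2 * N - p) : ℝ) * mo N p 0 - 2 * N * mo N p 1 + mo N p 2) := by
    unfold mo
    rw [mul_sum, mul_sum, ← sum_sub_distrib, ← sum_add_distrib, mul_sum]
    refine sum_congr rfl fun k hk => ?_
    rw [mem_fib] at hk
    have e1 : (2 * (k 0 : ℝ)) = p - k 2 := by
      have : ((2 * k 0 + k 2 : ℕ) : ℝ) = p := by rw [hk.2]
      push_cast at this
      linarith
    have e2 : (2 * (k 1 : ℝ)) = 2 * N - p - k 2 := by
      have : ((k 0 + k 1 + k 2 : ℕ) : ℝ) = N := by rw [hk.1]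
      push_cast at this
      linarith
    have e3 : (k 0 : ℝ) * (k 1 : ℝ) = 1 / 4 * ((p - k 2) * (2 * N - p - k 2)) := by
      rw [← e1, ← e2]; ring
    rw [e3]
    ring
  rw [h1, h2] at h
  linarith

theorem mo_cs (N p : ℕ) : mo N p 1 ^ 2 ≤ mo N p 2 * mo N p 0 := by
  unfold mo
  refine sum_sq_le_sum_mul_sum_of_sq_le_mul _
    (fun k _ => mul_nonneg (by positivity) (ww_nonneg N k))
    (fun k _ => mul_nonneg (by positivity) (ww_nonneg N k)) fun k _ => le_of_eq ?_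
  ring

/-- The main inequality. -/
theorem mo_main {N : ℕ} (hN : 1 ≤ N) (p : ℕ) : 3 * mo N p 1 ≤ (N + 2) * mo N p 0 := by
  have h0 := mo_nonneg N p 0
  have h1 := mo_nonneg N p 1
  have hcs := mo_cs N p
  have hr := mo_rel N p
  have hN' : (1 : ℝ) ≤ N := by exact_mod_cast hN
  have hp : (p * (2 * N - p) : ℝ) ≤ N ^ 2 := by nlinarith [sq_nonneg ((p : ℝ) - N)]
  by_contra hc
  push Not at hc
  generalize mo N p 0 = a at *
  generalize mo N p 1 = b at *
  generalize mo N p 2 = c at *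
  generalize (N : ℝ) = n at *
  generalize (p * (2 * n - p) : ℝ) = q at *
  -- 3 c + (2 n - 4) b = q a, b² ≤ c a, q ≤ n², (n + 2) a < 3 b
  rcases eq_or_lt_of_le h0 with ha | ha
  · rw [← ha] at hcs hc
    have : b = 0 := by nlinarith
    rw [this] at hc
    linarith
  · have k1 : 3 * b ^ 2 + (2 * n - 4) * b * a ≤ n ^ 2 * a ^ 2 := by
      have : 3 * (c * a) + (2 * n - 4) * b * a = q * a ^ 2 := by
        have h5 : (3 * c + (2 * n - 4) * b) * a = q * a * a := by rw [hr]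
        linarith
      nlinarith [mul_le_mul_of_nonneg_right hp (sq_nonneg a)]
    -- with s = 3 b - (n + 2) a > 0
    have hs : 0 < 3 * b - (n + 2) * a := by linarith
    have k2 : 3 * (3 * b ^ 2 + (2 * n - 4) * b * a) =
        (3 * b - (n + 2) * a) ^ 2 + (3 * b - (n + 2) * a) * a * (4 * n) +
          (n + 2) * (3 * n - 2) * a ^ 2 := by ring
    have k3 : 3 * (n ^ 2 * a ^ 2) ≤ (n + 2) * (3 * n - 2) * a ^ 2 := by
      have : 0 ≤ (4 * n - 4) * a ^ 2 := by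
        apply mul_nonneg (by linarith) (by positivity)
      nlinarith
    have k4 : 0 < (3 * b - (n + 2) * a) * a * (4 * n) := by positivity
    nlinarith [sq_nonneg (3 * b - (n + 2) * a)]

section ring

variable {R : Type} [CommRing R] [Algebra ℝ R]

theorem S_pow (X Y : R) (N : ℕ) : (X ^ 2 + X * Y + Y ^ 2) ^ N =
    ∑ k ∈ KK N, ww N k • (X ^ (2 * k 0 + k 2) * Y ^ (2 * k 1 + k 2)) := by
  have h : X ^ 2 + X * Y + Y ^ 2 = ∑ i : Fin 3, (![X ^ 2, Y ^ 2, X * Y] : Fin 3 → R) i := by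
    rw [Fin.sum_univ_three]
    simp only [Matrix.cons_val_zero, Matrix.cons_val_one, Matrix.cons_val]
    ring
  rw [h, sum_pow_eq_sum_piAntidiag]
  refine sum_congr rfl fun k hk => ?_
  rw [← ww_multi hk, Fin.prod_univ_three, Algebra.smul_def, map_natCast]
  simp only [Matrix.cons_val_zero, Matrix.cons_val_one, Matrix.cons_val]
  ring

theorem XYS_pow (X Y : R) (N : ℕ) : ((N + 1 : ℕ) : ℝ) • (X * Y * (X ^ 2 + X * Y + Y ^ 2) ^ N) =
    ∑ k ∈ KK (N + 1), ((k 2 : ℝ) * ww (N + 1) k) •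
      (X ^ (2 * k 0 + k 2) * Y ^ (2 * k 1 + k 2)) := by
  have h1 : ∑ k ∈ KK (N + 1), ((k 2 : ℝ) * ww (N + 1) k) •
      (X ^ (2 * k 0 + k 2) * Y ^ (2 * k 1 + k 2)) =
      ∑ k ∈ KK (N + 1) with 1 ≤ k 2, ((k 2 : ℝ) * ww (N + 1) k) •
      (X ^ (2 * k 0 + k 2) * Y ^ (2 * k 1 + k 2)) := by
    symm
    refine sum_subset (filter_subset _ _) fun k hk hk' => ?_
    have h2 : k 2 = 0 := by
      by_contra hc
      exact hk' (mem_filter.mpr ⟨hk, by omega⟩)
    rw [h2]; simp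
  rw [h1, S_pow, mul_sum, smul_sum]
  refine sum_bij' (fun k _ => up k) (fun k _ => ![k 0, k 1, k 2 - 1]) ?_ ?_ ?_ ?_ ?_
  · intro k hk
    rw [mem_filter, mem_KK]
    rw [mem_KK] at hk
    have e0 : up k 0 = k 0 := rfl
    have e1 : up k 1 = k 1 := rfl
    have e2 : up k 2 = k 2 + 1 := rfl
    rw [e0, e1, e2]
    omega
  · intro k hk
    rw [mem_filter, mem_KK] at hk
    rw [mem_KK]
    simp only [Matrix.cons_val_zero, Matrix.cons_val_one, Matrix.cons_val]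
    omega
  · intro k hk
    funext i
    fin_cases i <;> simp [up]
  · intro k hk
    rw [mem_filter, mem_KK] at hk
    funext i
    fin_cases i <;> simp [up]; omega
  · intro k hk
    rw [ww_up]
    have e0 : up k 0 = k 0 := rfl
    have e1 : up k 1 = k 1 := rfl
    have e2 : up k 2 = k 2 + 1 := rfl
    rw [e0, e1, e2]
    simp only [Algebra.smul_def, map_mul]
    ring

theorem group_sum (X Y : R) (N : ℕ) (F : (Fin 3 → ℕ) → ℝ) :
    ∑ k ∈ KK N, F k • (X ^ (2 * k 0 + k 2) * Y ^ (2 * k 1 + k 2)) =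
      ∑ p ∈ range (2 * N + 1), (∑ k ∈ fib N p, F k) • (X ^ p * Y ^ (2 * N - p)) := by
  rw [← sum_fiberwise_of_maps_to (s := KK N) (t := range (2 * N + 1))
    (g := fun k => 2 * k 0 + k 2)]
  · refine sum_congr rfl fun p _ => ?_
    rw [sum_smul]
    refine sum_congr rfl fun k hk => ?_
    have hk' : k 0 + k 1 + k 2 = N ∧ 2 * k 0 + k 2 = p := mem_fib.mp hk
    have e : 2 * k 1 + k 2 = 2 * N - p := by omega
    rw [e, hk'.2]
  · intro k hk
    rw [mem_KK] at hk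
    rw [mem_range]
    omega

/-- The trinomial identity with nonnegative coefficients. -/
theorem tri (X Y : R) (N : ℕ) : ∃ c : ℕ → ℝ, (∀ p, 0 ≤ c p) ∧
    ((N + 1 : ℕ) + 2 : ℝ) • (X ^ 2 + X * Y + Y ^ 2) ^ (N + 1) -
      (3 * ((N + 1 : ℕ) : ℝ)) • (X * Y * (X ^ 2 + X * Y + Y ^ 2) ^ N) =
      ∑ p ∈ range (2 * (N + 1) + 1), c p • (X ^ p * Y ^ (2 * (N + 1) - p)) := by
  refine ⟨fun p => (((N + 1 : ℕ) : ℝ) + 2) * mo (N + 1) p 0 - 3 * mo (N + 1) p 1, fun p => ?_, ?_⟩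
  · have := mo_main (N := N + 1) (by omega) p
    simp only
    linarith
  · rw [mul_smul, XYS_pow, S_pow, smul_sum, smul_sum, ← sum_sub_distrib]
    have h1 : ∀ k ∈ KK (N + 1), (((N + 1 : ℕ) : ℝ) + 2) • (ww (N + 1) k •
        (X ^ (2 * k 0 + k 2) * Y ^ (2 * k 1 + k 2))) - (3 : ℝ) • (((k 2 : ℝ) * ww (N + 1) k) •
        (X ^ (2 * k 0 + k 2) * Y ^ (2 * k 1 + k 2))) =
        ((((N + 1 : ℕ) : ℝ) + 2) * ((k 2 : ℝ) ^ 0 * ww (N + 1) k) -
          3 * ((k 2 : ℝ) ^ 1 * ww (N + 1) k)) •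
        (X ^ (2 * k 0 + k 2) * Y ^ (2 * k 1 + k 2)) := by
      intro k _
      rw [smul_smul, smul_smul, ← sub_smul, pow_zero, one_mul, pow_one]
    rw [sum_congr rfl h1, group_sum]
    refine sum_congr rfl fun p _ => ?_
    congr 1
    beta_reduce
    unfold mo
    rw [mul_sum, mul_sum, ← sum_sub_distrib]

end ring

end Pool.Agent.R770.NS
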