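import Pool.Agent.Y195.HF.Main
import Pool.Agent.R770.NS.Tri

/-!
# Rotating one skew form: `qi A` and `- (ff A)²`
-/

set_option autoImplicit false

namespace Pool.Agent.R770.NS

open Pool.Agent.Y195.HF Finset

variable {m : ℕ}

/-- the functional, as a complex linear map -/
noncomputable def LZ (m : ℕ) : Zc (I2 m → ℂ) →ₗ[ℂ] ℂ :=
  (LF m) ∘ₗ (zval (M := I2 m → ℂ)).toLinearMap

theorem LZ_apply (x : Zc (I2 m → ℂ)) : LZ m x = LF m (zval x) := rfl

theorem LR_LZ (x : Zc (I2 m → ℂ)) : LR m x = (LZ m x).re := rfl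

theorem weightT {C D : Mt m} (hC : ∀ i j, C j i = - C i j) (hD : ∀ i j, D j i = - D i j)
    {T : Zc (I2 m → ℂ)}
    (hT : ExteriorAlgebra.map (act m 2 0 0 (1 / 2)) (zval T) = zval T) {k l : ℕ} (hkl : k ≠ l) :
    LZ m (ff false false C ^ k * ff true true D ^ l * T) = 0 := by
  have h1 : (2 : ℂ) * (1 / 2) - 0 * 0 = 1 := by norm_num
  have h2 := LF_act (m := m) h1 (zval (ff false false C ^ k * ff true true D ^ l * T))
  have h3 : ExteriorAlgebra.map (act m 2 0 0 (1 / 2))
      (zval (ff false false C ^ k * ff true true D ^ l * T)) =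
      zval (((4 : ℂ) ^ k * (1 / 4) ^ l) • (ff false false C ^ k * ff true true D ^ l * T)) := by
    simp only [map_mul, map_pow, map_pp _ _ _ _ hC, map_cc _ _ _ _ hD, hT]
    simp only [← map_pow, ← map_mul]
    congr 1
    have e1 : ((2 : ℂ) ^ 2 • ff false false C + (2 * 2 * 0 : ℂ) • ff false true C +
        (0 : ℂ) ^ 2 • ff true true C) = (4 : ℂ) • ff false false C := by
      norm_num
    have e2 : ((0 : ℂ) ^ 2 • ff false false D + (2 * 0 * (1 / 2) : ℂ) • ff false true D +
        (1 / 2 : ℂ) ^ 2 • ff true true D) = (1 / 4 : ℂ) • ff true true D := by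
      norm_num
    rw [e1, e2, smul_pow, smul_pow]
    simp only [Algebra.smul_def, map_mul]
    ring
  rw [h3, map_smul, map_smul, smul_eq_mul] at h2
  have h4 : (4 : ℂ) ^ k * (1 / 4) ^ l ≠ 1 := by
    intro h
    apply hkl
    have h5 : (4 : ℂ) ^ k = 4 ^ l := by
      have h6 : (4 : ℂ) ^ l ≠ 0 := pow_ne_zero _ (by norm_num)
      rw [one_div, inv_pow] at h
      field_simp at h
      exact h
    have h7 : (4 : ℕ) ^ k = 4 ^ l := by exact_mod_cast h5
    exact Nat.pow_right_injective (le_refl 2 |>.trans (by norm_num)) h7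
  have h5 : ((4 : ℂ) ^ k * (1 / 4) ^ l - 1) *
      LF m (zval (ff false false C ^ k * ff true true D ^ l * T)) = 0 := by
    rw [sub_mul, h2, one_mul, sub_self]
  exact (mul_eq_zero.mp h5).resolve_left (sub_ne_zero.mpr h4)

theorem weightZ {A : Mt m} (hA : ∀ i j, A j i = - A i j) {T : Zc (I2 m → ℂ)} (hT : Inv T)
    {k l : ℕ} (hkl : k ≠ l) (n : ℕ) :
    LZ m (ff false false A ^ k * ff true true A ^ l * (ff false true A ^ n * T)) = 0 := by
  refine weightT hA hA ?_ hkl
  have h1 : (2 : ℂ) * (1 / 2) - 0 * 0 = 1 := by norm_num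
  rw [map_mul, map_mul, map_pow, map_pow, map_pc _ _ _ _ hA, hT _ _ _ _ h1]
  congr 3
  have e : ((2 : ℂ) * 0) • ff false false A + ((2 : ℂ) * (1 / 2) + 0 * 0) • ff false true A +
      ((0 : ℂ) * (1 / 2)) • ff true true A = ff false true A := by
    norm_num
  rw [e]

theorem flow {A : Mt m} (hA : ∀ i j, A j i = - A i j) {T : Zc (I2 m → ℂ)} (hT : Inv T) (n : ℕ) :
    ((n + 1 : ℕ) : ℂ) * LZ m (ff false false A * ff true true A * (ff false true A ^ n * T)) +
      2 * LZ m (ff false true A ^ (n + 2) * T) = 0 := by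
  have h1 : (1 : ℂ) * 1 - 1 * 0 = 1 := by norm_num
  have h2 := LF_act (m := m) h1
    (zval (ff false false A * (ff false true A ^ (n + 1) * T)))
  have h3 : ExteriorAlgebra.map (act m 1 1 0 1)
      (zval (ff false false A * (ff false true A ^ (n + 1) * T))) =
      zval ((ff false false A + (2 : ℂ) • ff false true A + ff true true A) *
        ((ff false true A + ff true true A) ^ (n + 1) * T)) := by
    simp only [map_mul, map_pow, map_pp _ _ _ _ hA, map_pc _ _ _ _ hA, hT _ _ _ _ h1]
    simp only [← map_pow, ← map_mul]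
    congr 2
    · norm_num
    · norm_num
  have h4 : LZ m (ff false false A * (ff false true A ^ (n + 1) * T)) = 0 := by
    have := weightZ hA hT (k := 1) (l := 0) one_ne_zero (n + 1)
    rwa [pow_one, pow_zero, mul_one] at this
  rw [h3, ← LZ_apply, ← LZ_apply, h4] at h2
  have h5 : (ff false false A + (2 : ℂ) • ff false true A + ff true true A) *
        ((ff false true A + ff true true A) ^ (n + 1) * T) =
      (∑ k ∈ range (n + 2), ((n + 1).choose k : ℂ) •
        (ff false false A ^ 1 * ff true true A ^ (n + 1 - k) * (ff false true A ^ k * T))) +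
      (∑ k ∈ range (n + 2), (2 * ((n + 1).choose k : ℂ)) •
        (ff false false A ^ 0 * ff true true A ^ (n + 1 - k) * (ff false true A ^ (k + 1) * T))) +
      (∑ k ∈ range (n + 2), ((n + 1).choose k : ℂ) •
        (ff false false A ^ 0 * ff true true A ^ (n + 1 - k + 1) *
          (ff false true A ^ k * T))) := by
    rw [add_pow, Finset.sum_mul, Finset.mul_sum, ← Finset.sum_add_distrib,
      ← Finset.sum_add_distrib]
    refine Finset.sum_congr rfl fun k _ => ?_
    simp only [Algebra.smul_def, map_mul, map_natCast, map_ofNat, pow_one, pow_zero]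
    ring
  rw [h5, map_add, map_add, map_sum, map_sum, map_sum] at h2
  have s1 : ∑ k ∈ range (n + 2), LZ m (((n + 1).choose k : ℂ) •
        (ff false false A ^ 1 * ff true true A ^ (n + 1 - k) * (ff false true A ^ k * T))) =
      ((n + 1 : ℕ) : ℂ) * LZ m (ff false false A * ff true true A * (ff false true A ^ n * T)) := by
    rw [Finset.sum_eq_single n]
    · rw [map_smul, smul_eq_mul, show n + 1 - n = 1 by omega, pow_one, pow_one,
        Nat.choose_succ_self_right]
    · intro k hk hkn
      rw [map_smul, weightZ hA hT (by rw [mem_range] at hk; omega), smul_zero]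
    · intro h
      exact absurd (mem_range.mpr (by omega)) h
  have s2 : ∑ k ∈ range (n + 2), LZ m ((2 * ((n + 1).choose k : ℂ)) •
        (ff false false A ^ 0 * ff true true A ^ (n + 1 - k) * (ff false true A ^ (k + 1) * T))) =
      2 * LZ m (ff false true A ^ (n + 2) * T) := by
    rw [Finset.sum_eq_single (n + 1)]
    · rw [map_smul, smul_eq_mul, Nat.sub_self, pow_zero, pow_zero, one_mul, one_mul,
        Nat.choose_self, Nat.cast_one, mul_one]
    · intro k hk hkn
      rw [map_smul, weightZ hA hT (by rw [mem_range] at hk; omega), smul_zero]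
    · intro h
      exact absurd (mem_range.mpr (by omega)) h
  have s3 : ∑ k ∈ range (n + 2), LZ m (((n + 1).choose k : ℂ) •
        (ff false false A ^ 0 * ff true true A ^ (n + 1 - k + 1) *
          (ff false true A ^ k * T))) = 0 := by
    refine Finset.sum_eq_zero fun k _ => ?_
    rw [map_smul, weightZ hA hT (by omega), smul_zero]
  rw [s1, s2, s3, add_zero] at h2
  exact h2

theorem qi_step {A : Mt m} (hA : ∀ i j, A j i = - A i j) {T : Zc (I2 m → ℂ)} (hT : Inv T) (n : ℕ) :
    ((n + 1 : ℕ) : ℂ) * LZ m (qi A * (ff false true A ^ n * T)) =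
      -((n + 3 : ℕ) : ℂ) * LZ m (ff false true A ^ (n + 2) * T) := by
  have h := flow hA hT n
  have h1 : qi A * (ff false true A ^ n * T) =
      ff false false A * ff true true A * (ff false true A ^ n * T) -
        ff false true A ^ (n + 2) * T := by
    rw [qi]
    ring
  rw [h1, map_sub]
  push_cast at h ⊢
  linear_combination h

/-- An invariant power may be replaced by a power of the mixed form. -/
theorem qi_pow {A : Mt m} (hA : ∀ i j, A j i = - A i j) (k : ℕ) :
    ∀ {T : Zc (I2 m → ℂ)}, Inv T → ∀ j : ℕ,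
      ((2 * j + 1 : ℕ) : ℂ) * LZ m (qi A ^ k * (ff false true A ^ (2 * j) * T)) =
        (-1) ^ k * ((2 * j + 2 * k + 1 : ℕ) : ℂ) *
          LZ m (ff false true A ^ (2 * j + 2 * k) * T) := by
  induction k with
  | zero =>
    intro T hT j
    simp
  | succ k ih =>
    intro T hT j
    have h1 := qi_step hA (T := qi A ^ k * T) ((qi_inv hA).pow k |>.mul hT) (2 * j)
    have h2 := ih hT (j + 1)
    have e1 : qi A ^ (k + 1) * (ff false true A ^ (2 * j) * T) =
        qi A * (ff false true A ^ (2 * j) * (qi A ^ k * T)) := by ring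
    have e2 : ff false true A ^ (2 * j + 2) * (qi A ^ k * T) =
        qi A ^ k * (ff false true A ^ (2 * (j + 1)) * T) := by ring
    rw [e1, h1, e2]
    have e3 : 2 * j + 3 = 2 * (j + 1) + 1 := by ring
    have e4 : 2 * j + 2 * (k + 1) = 2 * (j + 1) + 2 * k := by ring
    rw [e3, e4, neg_mul, h2, pow_succ]
    ring

theorem qi_pow' {A : Mt m} (hA : ∀ i j, A j i = - A i j) (k : ℕ)
    {T : Zc (I2 m → ℂ)} (hT : Inv T) :
    LZ m (qi A ^ k * T) = ((2 * k + 1 : ℕ) : ℂ) * LZ m ((-ff false true A ^ 2) ^ k * T) := by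
  have h := qi_pow hA k hT 0
  have e : (-ff false true A ^ 2) ^ k * T = ((-1 : ℂ) ^ k) • (ff false true A ^ (2 * k) * T) := by
    rw [neg_pow, ← pow_mul, Algebra.smul_def, map_pow, map_neg, map_one]
    ring
  rw [e, map_smul, smul_eq_mul]
  simp only [mul_zero, zero_add, Nat.cast_one, one_mul, pow_zero] at h
  rw [h]
  ring

/-- symmetric matrices give invariant elements -/
theorem ff_symm_inv {h : Mt m} (hh : ∀ i j, h j i = h i j) : Inv (ff false true h) := by
  have h0 : ∀ s : Bool, ff s s h = 0 := by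
    intro s
    have h1 : ff s s h = - ff s s h := by
      conv_lhs => rw [ff, Finset.sum_comm]
      rw [ff, ← Finset.sum_neg_distrib]
      refine Finset.sum_congr rfl fun i _ => ?_
      rw [← Finset.sum_neg_distrib]
      refine Finset.sum_congr rfl fun j _ => ?_
      rw [bv_swap, hh i j, smul_neg]
    have h2 : (2 : ℂ) • ff s s h = 0 := by
      rw [two_smul]
      nth_rewrite 2 [h1]
      exact add_neg_cancel _
    exact (smul_eq_zero.mp h2).resolve_left two_ne_zero
  have h1 : ff true false h = - ff false true h := by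
    conv_lhs => rw [ff, Finset.sum_comm]
    rw [ff, ← Finset.sum_neg_distrib]
    refine Finset.sum_congr rfl fun i _ => ?_
    rw [← Finset.sum_neg_distrib]
    refine Finset.sum_congr rfl fun j _ => ?_
    rw [bv_swap, hh i j, smul_neg]
  intro a b c d habcd
  rw [map_ff, h0, h0, h1]
  congr 1
  simp only [Bool.false_eq_true, if_false, if_true, smul_zero, zero_add, add_zero, smul_neg]
  rw [← sub_eq_add_neg, ← sub_smul, habcd, one_smul]

/-- The generating identity: `∑ C(N,k) (2k+1) a^(N-k) b^k`. -/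
theorem binom_id {R : Type} [CommRing R] (a b : R) (N : ℕ) :
    ∑ k ∈ range (N + 2), ((N + 1).choose k : R) * (2 * k + 1) * (a ^ (N + 1 - k) * b ^ k) =
      (a + b) ^ (N + 1) + 2 * ((N + 1 : ℕ) : R) * b * (a + b) ^ N := by
  have h1 : (a + b) ^ (N + 1) =
      ∑ k ∈ range (N + 2), ((N + 1).choose k : R) * (a ^ (N + 1 - k) * b ^ k) := by
    rw [add_comm a b, add_pow]
    refine Finset.sum_congr rfl fun k _ => ?_
    ring
  have h2 : ((N + 1 : ℕ) : R) * b * (a + b) ^ N =
      ∑ k ∈ range (N + 2), ((N + 1).choose k : R) * k * (a ^ (N + 1 - k) * b ^ k) := by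
    rw [Finset.sum_range_succ', Nat.cast_zero, mul_zero, zero_mul, add_zero, add_comm a b,
      add_pow, Finset.mul_sum]
    refine Finset.sum_congr rfl fun k hk => ?_
    have h3 : ((N + 1).choose (k + 1) : R) * ((k + 1 : ℕ) : R) =
        ((N + 1 : ℕ) : R) * (N.choose k : R) := by
      have := Nat.add_one_mul_choose_eq N k
      rw [← Nat.cast_mul, ← Nat.cast_mul, this]
    have h4 : N + 1 - (k + 1) = N - k := by omega
    rw [h4, h3]
    ring
  have h3 : 2 * ((N + 1 : ℕ) : R) * b * (a + b) ^ N =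
      2 * (((N + 1 : ℕ) : R) * b * (a + b) ^ N) := by ring
  rw [h3, h2, h1, Finset.mul_sum, ← Finset.sum_add_distrib]
  refine Finset.sum_congr rfl fun k _ => ?_
  ring

/-- The replacement of `qi A` by the square of the mixed form, together with `3 g²`. -/
theorem LZ_key {A h : Mt m} (hA : ∀ i j, A j i = - A i j) (hh : ∀ i j, h j i = h i j)
    {T : Zc (I2 m → ℂ)} (hT : Inv T) (N : ℕ) :
    LZ m ((3 * ff false true h ^ 2 + qi A) ^ (N + 1) * T) =
      LZ m ((((3 * ff false true h ^ 2) + (-ff false true A ^ 2)) ^ (N + 1) +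
        2 * ((N + 1 : ℕ) : Zc (I2 m → ℂ)) * (-ff false true A ^ 2) *
          ((3 * ff false true h ^ 2) + (-ff false true A ^ 2)) ^ N) * T) := by
  rw [← binom_id, add_comm (3 * ff false true h ^ 2) (qi A), add_pow, Finset.sum_mul,
    Finset.sum_mul, map_sum, map_sum]
  refine Finset.sum_congr rfl fun k _ => ?_
  have hI : Y195.HF.Inv ((3 : Zc (I2 m → ℂ)) * ff false true h ^ 2) := by
    have h3 : (3 : Zc (I2 m → ℂ)) * ff false true h ^ 2 = (3 : ℂ) • ff false true h ^ 2 := by
      rw [Algebra.smul_def, map_ofNat]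
    rw [h3]
    exact ((ff_symm_inv hh).pow 2).smul _
  have h1 := qi_pow' hA k (T := (3 * ff false true h ^ 2) ^ (N + 1 - k) * T) ((hI.pow _).mul hT)
  have e1 : qi A ^ k * (3 * ff false true h ^ 2) ^ (N + 1 - k) *
      (((N + 1).choose k : ℕ) : Zc (I2 m → ℂ)) * T =
      (((N + 1).choose k : ℕ) : ℂ) • (qi A ^ k * ((3 * ff false true h ^ 2) ^ (N + 1 - k) * T)) := by
    rw [Algebra.smul_def, map_natCast]
    ring
  have e2 : (((N + 1).choose k : ℕ) : Zc (I2 m → ℂ)) * (2 * (k : Zc (I2 m → ℂ)) + 1) *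
      ((3 * ff false true h ^ 2) ^ (N + 1 - k) * (-ff false true A ^ 2) ^ k) * T =
      ((((N + 1).choose k : ℕ) : ℂ) * ((2 * k + 1 : ℕ) : ℂ)) •
        ((-ff false true A ^ 2) ^ k * ((3 * ff false true h ^ 2) ^ (N + 1 - k) * T)) := by
    rw [Algebra.smul_def, map_mul, map_natCast, map_natCast]
    push_cast
    ring
  rw [e1, e2, map_smul, map_smul, h1, smul_eq_mul, smul_eq_mul]
  ring

end Pool.Agent.R770.NS
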