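import Pool.Agent.R770.NS.Pos

/-!
# The Gauss–Bonnet–Chern integrand: one skew form with the negative sign
-/

set_option autoImplicit false

namespace Pool.Agent.R770.NS

open Pool.Agent.Y195.HF Pool.Agent.W666.GB Pool.Agent.W669.HD Finset
open scoped ComplexOrder MatrixOrder Matrix

variable {m : ℕ}

/-! ### Gram matrices from positive semidefinite matrices -/

theorem isGram_of_psd {H : Matrix (Fin m × Bool) (Fin m × Bool) ℂ} (hH : H.PosSemidef) :
    IsGram (fun i j => H i j : Mt m) := by
  obtain ⟨B, hB⟩ := CStarAlgebra.nonneg_iff_eq_star_mul_self.mp hH.nonneg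
  let eqv := (Fintype.equivFin (Fin m × Bool)).symm
  refine ⟨_, fun a i => (starRingEnd ℂ) (B (eqv a) i), fun i j => ?_⟩
  show H i j = _
  rw [hB, Matrix.mul_apply, ← Equiv.sum_comp eqv]
  refine Finset.sum_congr rfl fun a _ => ?_
  rw [Matrix.star_apply, Complex.conj_conj]
  rfl

section forms

variable {V : Type} [NormedAddCommGroup V] [InnerProductSpace ℝ V]

/-- Symmetric bilinear forms on `V`. -/
structure SymForm (h : V → V → ℝ) : Prop where
  add : ∀ x x' y, h (x + x') y = h x y + h x' y
  smul : ∀ (t : ℝ) (x y : V), h (t • x) y = t * h x y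
  symm : ∀ x y, h y x = h x y

/-- The curvature type tensor `h(x,z) h(y,w) - h(x,w) h(y,z)` of a symmetric form: the form which
`h` induces on bivectors. -/
def knSq (h : V → V → ℝ) (x y z w : V) : ℝ := h x z * h y w - h x w * h y z

theorem SymForm.curv {h : V → V → ℝ} (hh : SymForm h) : AlgCurv (knSq h) where
  add x x' y z w := by
    simp only [knSq, hh.add]
    ring
  smul t x y z w := by
    simp only [knSq, hh.smul]
    ring
  anti x y z w := by
    simp only [knSq]
    ring
  pair x y z w := by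
    simp only [knSq]
    rw [hh.symm x z, hh.symm y w, hh.symm y z, hh.symm x w]
    ring
  bianchi x y z w := by
    simp only [knSq]
    rw [hh.symm x z, hh.symm x y, hh.symm y z]
    ring

theorem smul_curv {R : V → V → V → V → ℝ} (hR : AlgCurv R) (c : ℝ) :
    AlgCurv (fun x y z w => c * R x y z w) where
  add x x' y z w := by simp only [hR.add]; ring
  smul t x y z w := by simp only [hR.smul]; ring
  anti x y z w := by rw [hR.anti]; ring
  pair x y z w := by rw [hR.pair]
  bianchi x y z w := by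
    have := hR.bianchi x y z w
    linear_combination c * this

/-- bilinear expansion -/
theorem bil_sum {B : V → V → ℝ} (ha : ∀ x x' y, B (x + x') y = B x y + B x' y)
    (hs : ∀ (t : ℝ) (x y : V), B (t • x) y = t * B x y)
    (ha' : ∀ x y y', B x (y + y') = B x y + B x y')
    (hs' : ∀ (t : ℝ) (x y : V), B x (t • y) = t * B x y)
    {ι : Type} [Fintype ι] (f : ι → V) (a b : ι → ℝ) :
    B (∑ i, a i • f i) (∑ j, b j • f j) = ∑ i, ∑ j, a i * b j * B (f i) (f j) := by
  classical
  have z1 : ∀ y, B 0 y = 0 := fun y => by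
    have := hs 0 0 y
    rwa [zero_smul, zero_mul] at this
  have z2 : ∀ x, B x 0 = 0 := fun x => by
    have := hs' 0 x 0
    rwa [zero_smul, zero_mul] at this
  have h1 : ∀ (s : Finset ι) (y : V), B (∑ i ∈ s, a i • f i) y = ∑ i ∈ s, a i * B (f i) y := by
    intro s y
    induction s using Finset.induction_on with
    | empty => rw [sum_empty, sum_empty, z1]
    | insert c s hc ih => rw [sum_insert hc, sum_insert hc, ha, hs, ih]
  have h2 : ∀ (s : Finset ι) (x : V), B x (∑ i ∈ s, b i • f i) = ∑ i ∈ s, b i * B x (f i) := by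
    intro s x
    induction s using Finset.induction_on with
    | empty => rw [sum_empty, sum_empty, z2]
    | insert c s hc ih => rw [sum_insert hc, sum_insert hc, ha', hs', ih]
  rw [h1]
  refine Finset.sum_congr rfl fun i _ => ?_
  rw [h2, Finset.mul_sum]
  refine Finset.sum_congr rfl fun j _ => ?_
  ring

theorem SymForm.expand {h : V → V → ℝ} (hh : SymForm h) {ι : Type} [Fintype ι] (f : ι → V)
    (a b : ι → ℝ) : h (∑ i, a i • f i) (∑ j, b j • f j) = ∑ i, ∑ j, a i * b j * h (f i) (f j) :=
  bil_sum hh.add hh.smul (fun x y y' => by rw [← hh.symm x (y + y'), hh.add, hh.symm x y,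
    hh.symm x y']) (fun t x y => by rw [← hh.symm x (t • y), hh.smul, hh.symm x y]) f a b

theorem skew_expand {A : V → V → ℝ} (hA : SkewForm A) {ι : Type} [Fintype ι] (f : ι → V)
    (a b : ι → ℝ) : A (∑ i, a i • f i) (∑ j, b j • f j) = ∑ i, ∑ j, a i * b j * A (f i) (f j) :=
  bil_sum hA.add hA.smul (fun x y y' => by
    rw [hA.anti (y + y') x, hA.add, hA.anti x y, hA.anti x y']; ring)
    (fun t x y => by rw [hA.anti (t • y) x, hA.smul, hA.anti x y]; ring) f a b

/-- The Hermitian matrix `(h + i s A) / 2` is positive semidefinite. -/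
theorem psd_form {A h : V → V → ℝ} (hA : SkewForm A) (hh : SymForm h)
    (hAh : ∀ x y, 2 * A x y ≤ h x x + h y y) (e : Fin m × Bool → V) :
    (Matrix.of fun i j => (((h (e i) (e j) : ℝ) : ℂ) + Complex.I * (A (e i) (e j) : ℝ)) / 2 :
      Matrix (Fin m × Bool) (Fin m × Bool) ℂ).PosSemidef := by
  set H : Matrix (Fin m × Bool) (Fin m × Bool) ℂ :=
    Matrix.of fun i j => (((h (e i) (e j) : ℝ) : ℂ) + Complex.I * (A (e i) (e j) : ℝ)) / 2 with hH
  have hherm : H.IsHermitian := by
    ext i j
    rw [Matrix.conjTranspose_apply, hH, Matrix.of_apply, Matrix.of_apply, hA.anti (e i) (e j),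
      hh.symm (e i) (e j)]
    simp only [Complex.star_def, map_div₀, map_add, map_mul, Complex.conj_I, Complex.conj_ofReal,
      map_ofNat]
    push_cast
    ring
  refine Matrix.PosSemidef.of_dotProduct_mulVec_nonneg hherm fun x => ?_
  have him := hherm.im_star_dotProduct_mulVec_self x
  rw [Complex.nonneg_iff]
  refine ⟨?_, him.symm⟩
  have hre : (star x ⬝ᵥ (H *ᵥ x)).re = (1 / 2) *
      (h (∑ i, (x i).re • e i) (∑ i, (x i).re • e i) +
        h (∑ i, (x i).im • e i) (∑ i, (x i).im • e i) -
        A (∑ i, (x i).re • e i) (∑ i, (x i).im • e i) +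
        A (∑ i, (x i).im • e i) (∑ i, (x i).re • e i)) := by
    rw [hh.expand, hh.expand, skew_expand hA, skew_expand hA, ← Finset.sum_add_distrib,
      ← Finset.sum_sub_distrib, ← Finset.sum_add_distrib, Finset.mul_sum, dotProduct,
      Complex.re_sum]
    refine Finset.sum_congr rfl fun i _ => ?_
    rw [← Finset.sum_add_distrib, ← Finset.sum_sub_distrib, ← Finset.sum_add_distrib,
      Finset.mul_sum, Matrix.mulVec, dotProduct, Finset.mul_sum, Complex.re_sum]
    refine Finset.sum_congr rfl fun j _ => ?_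
    rw [hH, Matrix.of_apply]
    have e2 : (((h (e i) (e j) : ℝ) : ℂ) + Complex.I * (A (e i) (e j) : ℝ)) / 2 =
        ((h (e i) (e j) / 2 : ℝ) : ℂ) + Complex.I * ((A (e i) (e j) / 2 : ℝ) : ℂ) := by
      push_cast
      ring
    rw [e2]
    simp only [Pi.star_apply, Complex.star_def, Complex.mul_re, Complex.mul_im, Complex.add_re,
      Complex.add_im, Complex.I_re, Complex.I_im, Complex.ofReal_re, Complex.ofReal_im,
      Complex.conj_re, Complex.conj_im]
    ring
  rw [hre]
  have h1 := hAh (∑ i, (x i).re • e i) (∑ i, (x i).im • e i)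
  have h2 := hA.anti (∑ i, (x i).re • e i) (∑ i, (x i).im • e i)
  rw [h2]
  linarith

theorem gram_form {A h : V → V → ℝ} (hA : SkewForm A) (hh : SymForm h)
    (hAh : ∀ x y, 2 * A x y ≤ h x x + h y y) (e : Fin m × Bool → V) :
    IsGram (fun i j => (cm (fun i j => h (e i) (e j)) i j +
      Complex.I * cm (fun i j => A (e i) (e j)) i j) / 2 : Mt m) :=
  isGram_of_psd (psd_form hA hh hAh e)

theorem gram_form' {A h : V → V → ℝ} (hA : SkewForm A) (hh : SymForm h)
    (hAh : ∀ x y, 2 * A x y ≤ h x x + h y y) (e : Fin m × Bool → V) :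
    IsGram (fun i j => (cm (fun i j => h (e i) (e j)) i j -
      Complex.I * cm (fun i j => A (e i) (e j)) i j) / 2 : Mt m) := by
  have hA' : SkewForm (fun x y => - A x y) :=
    ⟨fun x x' y => by rw [hA.add]; ring, fun t x y => by rw [hA.smul]; ring,
      fun x y => by rw [hA.anti x y]⟩
  have h1 := gram_form (m := m) hA' hh (fun x y => by
    have := hAh y x
    rw [hA.anti x y] at this
    linarith) e
  obtain ⟨n, u, hu⟩ := h1
  refine ⟨n, u, fun i j => ?_⟩
  rw [← hu]
  simp only [cm]
  push_cast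
  ring

end forms

/-- the tensor of a symmetric matrix -/
def kR (h : Fin m × Bool → Fin m × Bool → ℝ) : T4 m := fun i j k l => h i k * h j l - h i l * h j k

theorem eL_kR (h : Fin m × Bool → Fin m × Bool → ℝ) :
    eL (cx (kR h)) = (-2 : ℂ) • ff false true (cm h) ^ 2 := by
  have h1 : (cx (kR h) : C4 m) = fun i j k l => (cm h i k * cm h j l) +
      (-1 : ℂ) * (cm h i l * cm h j k) := by
    funext i j k l
    simp only [cx, kR, cm]
    push_cast
    ring
  rw [h1, eL_add (fun i j k l => cm h i k * cm h j l) (fun i j k l => (-1 : ℂ) *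
    (cm h i l * cm h j k)), eL_smul (-1) (fun i j k l => cm h i l * cm h j k), eL_cross, eL_cross',
    ← neg_one_smul ℂ (ff false true (cm h) ^ 2), ← add_smul]
  norm_num

theorem eL_G (A h : Fin m × Bool → Fin m × Bool → ℝ) :
    eL (cx (fun i j k l => 3 * kR h i j k l - scR A i j k l : T4 m)) =
      (2 : ℝ) • (-(3 * ff false true (cm h) ^ 2 + qi (cm A))) := by
  have h1 : (cx (fun i j k l => 3 * kR h i j k l - scR A i j k l : T4 m) : C4 m) =
      fun i j k l => (3 : ℂ) * cx (kR h) i j k l + (-1 : ℂ) * cx (scR A) i j k l := by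
    funext i j k l
    simp only [cx]
    push_cast
    ring
  rw [h1, eL_add (fun i j k l => (3 : ℂ) * cx (kR h) i j k l)
    (fun i j k l => (-1 : ℂ) * cx (scR A) i j k l), eL_smul, eL_smul, eL_kR, eL_scR]
  simp only [Algebra.smul_def, map_neg, map_ofNat, map_one]
  ring

/-- The algebraic main theorem. -/
theorem gm_bound2 {D P : T4 m} (hD : Adm D) (hP : Adm P)
    {A h : Fin m × Bool → Fin m × Bool → ℝ} (hA : ∀ i j, A j i = - A i j)
    (hh : ∀ i j, h j i = h i j)
    (hp : IsGram (fun i j => (cm h i j + Complex.I * cm A i j) / 2 : Mt m))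
    (hm : IsGram (fun i j => (cm h i j - Complex.I * cm A i j) / 2 : Mt m)) :
    gm (fun _ : Fin m => D) ≤ gm (fun _ : Fin m =>
      (fun i j k l => D i j k l + (P i j k l + (3 * kR h i j k l - scR A i j k l)) : T4 m)) := by
  have hA' : ∀ i j, cm A j i = - cm A i j := fun i j => by
    simp only [cm, hA i j, Complex.ofReal_neg]
  have hh' : ∀ i j, cm h j i = cm h i j := fun i j => by
    simp only [cm, hh i j]
  set G : T4 m := fun i j k l => 3 * kR h i j k l - scR A i j k l with hG
  have key : ∀ a b c : ℕ, a + b + c = m →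
      0 ≤ LR m (eL (cx D) ^ a * (eL (cx P) ^ b * eL (cx G) ^ c)) := by
    intro a b c habc
    have hI : Y195.HF.Inv (eL (cx D) ^ a * eL (cx P) ^ b) := (hD.inv.pow a).mul (hP.inv.pow b)
    have hc : eL (cx D) ^ a * eL (cx P) ^ b ∈ cone m (a + b) :=
      cone_mul (cone_pow hD.mem a) (cone_pow hP.mem b)
    have h1 := pos_neg hA' hh' hp hm hI (N := c) (n := a + b) hc (by omega)
    have e1 : eL (cx D) ^ a * (eL (cx P) ^ b * eL (cx G) ^ c) =
        ((2 : ℝ) ^ c) • ((-(3 * ff false true (cm h) ^ 2 + qi (cm A))) ^ c *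
          (eL (cx D) ^ a * eL (cx P) ^ b)) := by
      rw [hG, eL_G, smul_pow]
      simp only [Algebra.smul_def]
      ring
    rw [e1, map_smul, smul_eq_mul]
    positivity
  have hsum : eL (cx (fun i j k l => D i j k l + (P i j k l + G i j k l) : T4 m)) =
      eL (cx D) + (eL (cx P) + eL (cx G)) := by
    rw [← eL_add (cx P), ← eL_add (cx D)]
    congr 1
    funext i j k l
    simp only [cx]
    push_cast
    rfl
  rw [gm_LR, gm_LR, hsum, add_pow, map_sum, Finset.sum_range_succ]
  have h1 : eL (cx D) ^ m * (eL (cx P) + eL (cx G)) ^ (m - m) *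
      ((m.choose m : ℕ) : Zc (I2 m → ℂ)) = eL (cx D) ^ m := by
    rw [Nat.sub_self, pow_zero, Nat.choose_self, Nat.cast_one, mul_one, mul_one]
  rw [h1]
  have h2 : 0 ≤ ∑ k ∈ Finset.range m, LR m (eL (cx D) ^ k *
      (eL (cx P) + eL (cx G)) ^ (m - k) * ((m.choose k : ℕ) : Zc (I2 m → ℂ))) := by
    refine Finset.sum_nonneg fun k hk => ?_
    rw [Finset.mem_range] at hk
    rw [add_pow, Finset.mul_sum, Finset.sum_mul, map_sum]
    refine Finset.sum_nonneg fun j hj => ?_
    rw [Finset.mem_range] at hj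
    have h3 := key k j (m - k - j) (by omega)
    have e2 : eL (cx D) ^ k * (eL (cx P) ^ j * eL (cx G) ^ (m - k - j) *
        (((m - k).choose j : ℕ) : Zc (I2 m → ℂ))) * ((m.choose k : ℕ) : Zc (I2 m → ℂ)) =
        (((m - k).choose j * m.choose k : ℕ) : ℝ) • (eL (cx D) ^ k * (eL (cx P) ^ j *
          eL (cx G) ^ (m - k - j))) := by
      simp only [Algebra.smul_def, map_natCast, Nat.cast_mul, map_mul]
      ring
    rw [e2, map_smul, smul_eq_mul]
    positivity
  linarith

section final

variable {V : Type} [NormedAddCommGroup V] [InnerProductSpace ℝ V]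

/-- The hypothesis: `-R = P - skewCurv A` for a skew form `A`, where the curvature operator of
`P` is at least `c Λ²h + δ` for a symmetric form `h` with `2 A(x,y) ≤ h(x,x) + h(y,y)`. -/
def NegSkew (c δ : ℝ) (R : V → V → V → V → ℝ) : Prop :=
  ∃ A h : V → V → ℝ, SkewForm A ∧ SymForm h ∧ (∀ x y, 2 * A x y ≤ h x x + h y y) ∧
    OpNonneg (negT (addT (addT (addT R fun x y z w => δ * unitT x y z w)
      fun x y z w => c * knSq h x y z w) (negT (skewCurv A))))

theorem neg_skew (e : OrthonormalBasis (Fin m × Bool) ℝ V) {R : V → V → V → V → ℝ}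
    (hR : AlgCurv R) {δ : ℝ} (hδ : 0 ≤ δ) (h : NegSkew 3 δ R) :
    roundGB m δ ≤ (-1) ^ m * gbc e R := by
  classical
  obtain ⟨A, f, hA, hf, hAf, hn⟩ := h
  rw [gbc_eq]
  have hπ := Real.pi_pos
  have hc : 0 < 1 / ((8 * Real.pi) ^ m * (m.factorial : ℝ)) := by positivity
  have hr : roundGB m δ = 1 / ((8 * Real.pi) ^ m * m.factorial) *
      (2 ^ m * (δ ^ m * (2 * m).factorial)) := by
    unfold roundGB
    have : (8 * Real.pi) ^ m = 2 ^ m * (4 * Real.pi) ^ m := by
      rw [← mul_pow]; congr 1; ring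
    rw [this]
    field_simp
  rw [hr]
  refine mul_le_mul_of_nonneg_left ?_ hc.le
  have hP : AlgCurv (negT (addT (addT (addT R fun x y z w => δ * unitT x y z w)
      fun x y z w => 3 * knSq f x y z w) (negT (skewCurv A)))) :=
    neg_curv (add_curv (add_curv (add_curv hR (unit_curv δ)) (smul_curv hf.curv 3))
      (neg_curv hA.curv))
  have h1 := gm_bound2 (adm_unit (m := m) hδ) (adm_cp e hP hn)
    (A := fun i j => A (e i) (e j)) (h := fun i j => f (e i) (e j))
    (fun i j => hA.anti _ _) (fun i j => hf.symm _ _)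
    (gram_form hA hf hAf fun i => e i) (gram_form' hA hf hAf fun i => e i)
  rw [unit_gm] at h1
  refine h1.trans (le_of_eq ?_)
  congr 1
  funext _ i j k l
  have h2 := cp_unit e i j k l
  simp only [cp, negT, addT, skewCurv, scR, knSq, kR, h2]
  ring

theorem field_neg {M : Type} [MeasurableSpace M] (μ : MeasureTheory.Measure M)
    (K : CurvField m M) (h : ∀ p, NegSkew 3 0 (K.R p)) :
    0 ≤ (-1) ^ m * ∫ p, K.gb p ∂μ := by
  rw [← MeasureTheory.integral_const_mul]
  refine MeasureTheory.integral_nonneg fun p => ?_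
  exact (roundGB_nonneg le_rfl).trans (neg_skew (K.e p) (K.curv p) le_rfl (h p))

theorem field_neg' {M : Type} [MeasurableSpace M] (μ : MeasureTheory.Measure M)
    [MeasureTheory.IsFiniteMeasure μ] (K : CurvField m M) (hi : MeasureTheory.Integrable K.gb μ)
    {δ : ℝ} (hδ : 0 ≤ δ) (h : ∀ p, NegSkew 3 δ (K.R p)) :
    roundGB m δ * μ.real Set.univ ≤ (-1) ^ m * ∫ p, K.gb p ∂μ := by
  rw [← MeasureTheory.integral_const_mul]
  have h1 : roundGB m δ * μ.real Set.univ = ∫ _, roundGB m δ ∂μ := by
    rw [MeasureTheory.integral_const, smul_eq_mul, mul_comm]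
  rw [h1]
  refine MeasureTheory.integral_mono (MeasureTheory.integrable_const _) (hi.const_mul _) fun p => ?_
  exact neg_skew (K.e p) (K.curv p) hδ (h p)

end final

end Pool.Agent.R770.NS
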