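import Pool.Agent.R770.NS.Alg
import Mathlib.Analysis.Matrix.Order

/-!
# Positivity of mixed forms of Hermitian positive semidefinite matrices
-/

set_option autoImplicit false

namespace Pool.Agent.R770.NS

open Pool.Agent.Y195.HF Finset

variable {m : ℕ}

section bvsum

variable {M : Type} [AddCommGroup M] [Module ℂ M]

theorem bv_zero_left (v : M) : bv 0 v = 0 := by
  have h := bv_smul_left (0 : ℂ) (0 : M) v
  rwa [zero_smul, zero_smul] at h

theorem bv_zero_right (v : M) : bv v 0 = 0 := by
  have h := bv_smul_right (0 : ℂ) v (0 : M)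
  rwa [zero_smul, zero_smul] at h

theorem bv_sum_left {ι : Type} (s : Finset ι) (f : ι → M) (v : M) :
    bv (∑ i ∈ s, f i) v = ∑ i ∈ s, bv (f i) v := by
  classical
  induction s using Finset.induction_on with
  | empty => rw [sum_empty, sum_empty, bv_zero_left]
  | insert a s ha ih => rw [sum_insert ha, sum_insert ha, bv_add_left, ih]

theorem bv_sum_right {ι : Type} (s : Finset ι) (f : ι → M) (v : M) :
    bv v (∑ i ∈ s, f i) = ∑ i ∈ s, bv v (f i) := by
  classical
  induction s using Finset.induction_on with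
  | empty => rw [sum_empty, sum_empty, bv_zero_right]
  | insert a s ha ih => rw [sum_insert ha, sum_insert ha, bv_add_right, ih]

end bvsum

/-- a vector in one of the two copies -/
noncomputable def vec (s : Bool) (u : Fin m × Bool → ℂ) : I2 m → ℂ := ∑ i, u i • th m s i

theorem ff_vec (s t : Bool) (u v : Fin m × Bool → ℂ) :
    ff s t (fun i j => u i * v j) = bv (vec s u) (vec t v) := by
  unfold ff vec
  rw [bv_sum_left]
  refine Finset.sum_congr rfl fun i _ => ?_
  rw [bv_sum_right]
  refine Finset.sum_congr rfl fun j _ => ?_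
  rw [bv_smul_left, bv_smul_right, smul_smul]

theorem ff_sum {κ : Type} [Fintype κ] (s t : Bool) (A : κ → Mt m) :
    ff s t (fun i j => ∑ a, A a i j) = ∑ a, ff s t (A a) := by
  unfold ff
  simp only [Finset.sum_smul]
  symm
  rw [Finset.sum_comm]
  refine Finset.sum_congr rfl fun i _ => ?_
  rw [Finset.sum_comm]

/-- Gram matrices -/
def IsGram (H : Mt m) : Prop := ∃ (n : ℕ) (u : Fin n → Fin m × Bool → ℂ),
  ∀ i j, H i j = ∑ a, u a i * (starRingEnd ℂ) (u a j)

theorem rank_pair (u v : Fin m × Bool → ℂ) :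
    -(ff false true (fun i j => u i * (starRingEnd ℂ) (u j)) *
      ff false true (fun i j => v i * (starRingEnd ℂ) (v j))) ∈ cone m 1 := by
  have h : -(ff false true (fun i j => u i * (starRingEnd ℂ) (u j)) *
      ff false true (fun i j => v i * (starRingEnd ℂ) (v j))) =
      ff false false (fun i j => u i * v j) * ff true true (cj fun i j => u i * v j) := by
    have h1 : (cj fun i j => u i * v j : Mt m) =
        fun i j => (starRingEnd ℂ) (u i) * (starRingEnd ℂ) (v j) := by
      funext i j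
      simp only [cj, map_mul]
    rw [h1, ff_vec false true u (fun j => (starRingEnd ℂ) (u j)),
      ff_vec false true v (fun j => (starRingEnd ℂ) (v j)), ff_vec,
      ff_vec true true (fun j => (starRingEnd ℂ) (u j)) (fun j => (starRingEnd ℂ) (v j)),
      bv_exch, neg_neg]
  rw [h]
  have h2 := cone_gen' (m := m) (n := 1) (fun _ => fun i j => u i * v j)
  rwa [Fin.prod_univ_one] at h2

theorem gram_pair {H K : Mt m} (hH : IsGram H) (hK : IsGram K) :
    -(ff false true H * ff false true K) ∈ cone m 1 := by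
  obtain ⟨n, u, hu⟩ := hH
  obtain ⟨n', v, hv⟩ := hK
  have h1 : H = fun i j => ∑ a, u a i * (starRingEnd ℂ) (u a j) := by
    funext i j; exact hu i j
  have h2 : K = fun i j => ∑ a, v a i * (starRingEnd ℂ) (v a j) := by
    funext i j; exact hv i j
  rw [h1, h2, ff_sum (κ := Fin n) false true (fun a i j => u a i * (starRingEnd ℂ) (u a j)),
    ff_sum (κ := Fin n') false true (fun a i j => v a i * (starRingEnd ℂ) (v a j)),
    Finset.sum_mul_sum, ← Finset.sum_neg_distrib]
  refine AddSubmonoid.sum_mem _ fun a _ => ?_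
  rw [← Finset.sum_neg_distrib]
  refine AddSubmonoid.sum_mem _ fun b _ => ?_
  exact rank_pair (u a) (v b)

theorem gram_pow {H K : Mt m} (hH : IsGram H) (hK : IsGram K) {p q N : ℕ} (h : p + q = 2 * N) :
    (-1) ^ N * (ff false true H ^ p * ff false true K ^ q) ∈ cone m N := by
  have hXX : -ff false true H ^ 2 ∈ cone m 1 := by
    have := gram_pair hH hH
    rwa [← sq] at this
  have hYY : -ff false true K ^ 2 ∈ cone m 1 := by
    have := gram_pair hK hK
    rwa [← sq] at this
  rcases Nat.even_or_odd' p with ⟨a, hp | hp⟩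
  · obtain ⟨b, hb⟩ : ∃ b, q = 2 * b := ⟨N - a, by omega⟩
    have hN : N = a + b := by omega
    have e : (-1) ^ N * (ff false true H ^ p * ff false true K ^ q) =
        (-ff false true H ^ 2) ^ a * (-ff false true K ^ 2) ^ b := by
      rw [hp, hb, hN, neg_pow (ff false true H ^ 2), neg_pow (ff false true K ^ 2)]
      ring
    rw [e, hN]
    exact cone_mul (cone_pow hXX a) (cone_pow hYY b)
  · obtain ⟨b, hb⟩ : ∃ b, q = 2 * b + 1 := ⟨N - a - 1, by omega⟩
    have hN : N = a + b + 1 := by omega
    have e : (-1) ^ N * (ff false true H ^ p * ff false true K ^ q) =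
        (-ff false true H ^ 2) ^ a * (-ff false true K ^ 2) ^ b *
          -(ff false true H * ff false true K) := by
      rw [hp, hb, hN, neg_pow (ff false true H ^ 2), neg_pow (ff false true K ^ 2)]
      ring
    rw [e, hN]
    exact cone_mul (cone_mul (cone_pow hXX a) (cone_pow hYY b)) (gram_pair hH hK)

theorem cone_LR {y : Zc (I2 m → ℂ)} (hy : y ∈ cone m m) : 0 ≤ LR m y := by
  obtain ⟨r, hr, h⟩ := cone_LF hy
  rw [LR_apply, h, Complex.ofReal_re]
  exact hr

/-- The main positivity. -/
theorem pos_neg {A h : Mt m} (hA : ∀ i j, A j i = - A i j) (hh : ∀ i j, h j i = h i j)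
    (hp : IsGram (fun i j => (h i j + Complex.I * A i j) / 2 : Mt m))
    (hm : IsGram (fun i j => (h i j - Complex.I * A i j) / 2 : Mt m))
    {T : Zc (I2 m → ℂ)} (hT : Inv T) {N n : ℕ} (hTc : T ∈ cone m n) (hN : N + n = m) :
    0 ≤ LR m ((-(3 * ff false true h ^ 2 + qi A)) ^ N * T) := by
  cases N with
  | zero =>
    rw [pow_zero, one_mul]
    rw [zero_add] at hN
    rw [hN] at hTc
    exact cone_LR hTc
  | succ N =>
    set X := ff false true (fun i j => (h i j + Complex.I * A i j) / 2 : Mt m) with hX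
    set Y := ff false true (fun i j => (h i j - Complex.I * A i j) / 2 : Mt m) with hY
    have e1 : ff false true h = X + Y := by
      rw [hX, hY, ← ff_add]
      congr 1
      funext i j
      simp only [Pi.add_apply]
      ring
    have e2 : algebraMap ℂ (Zc (I2 m → ℂ)) Complex.I * ff false true A = X - Y := by
      have h1 : (X - Y : Zc (I2 m → ℂ)) = X + (-1 : ℂ) • Y := by
        rw [neg_smul, one_smul, sub_eq_add_neg]
      rw [h1, hX, hY, ← ff_smul, ← ff_add, ← Algebra.smul_def, ← ff_smul]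
      congr 1
      funext i j
      simp only [Pi.add_apply, Pi.smul_apply, smul_eq_mul]
      ring
    have hI : algebraMap ℂ (Zc (I2 m → ℂ)) Complex.I ^ 2 = -1 := by
      rw [← map_pow, Complex.I_sq, map_neg, map_one]
    have e3 : -ff false true A ^ 2 = (X - Y) ^ 2 := by
      rw [← e2, mul_pow, hI]
      ring
    obtain ⟨c, hc, htri⟩ := tri X Y N
    have key := LZ_key hA hh hT N
    rw [e3, e1] at key
    have e4 : (3 * (X + Y) ^ 2 + (X - Y) ^ 2) ^ (N + 1) +
        2 * ((N + 1 : ℕ) : Zc (I2 m → ℂ)) * (X - Y) ^ 2 *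
          (3 * (X + Y) ^ 2 + (X - Y) ^ 2) ^ N =
        (2 * 4 ^ N : ℝ) • (((N + 1 : ℕ) + 2 : ℝ) • (X ^ 2 + X * Y + Y ^ 2) ^ (N + 1) -
          (3 * ((N + 1 : ℕ) : ℝ)) • (X * Y * (X ^ 2 + X * Y + Y ^ 2) ^ N)) := by
      have h4 : 3 * (X + Y) ^ 2 + (X - Y) ^ 2 = 4 * (X ^ 2 + X * Y + Y ^ 2) := by ring
      rw [h4, mul_pow, mul_pow _ _ N, pow_succ (X ^ 2 + X * Y + Y ^ 2) N]
      simp only [Algebra.smul_def, map_mul, map_pow, map_add, map_ofNat, map_natCast]
      generalize (X ^ 2 + X * Y + Y ^ 2) ^ N = P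
      ring
    rw [e4, htri] at key
    have e5 : LR m ((-(3 * ff false true h ^ 2 + qi A)) ^ (N + 1) * T) =
        ∑ p ∈ range (2 * (N + 1) + 1), (2 * 4 ^ N * c p) *
          LR m ((-1) ^ (N + 1) * (X ^ p * Y ^ (2 * (N + 1) - p)) * T) := by
      have h5 : (-(3 * ff false true h ^ 2 + qi A)) ^ (N + 1) * T =
          ((-1 : ℂ) ^ (N + 1)) • ((3 * (X + Y) ^ 2 + qi A) ^ (N + 1) * T) := by
        rw [e1, neg_pow, Algebra.smul_def, map_pow, map_neg, map_one]
        ring
      rw [h5, LR_LZ, map_smul, key, ← map_smul]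
      have h6 : ((-1 : ℂ) ^ (N + 1)) • ((2 * 4 ^ N : ℝ) •
          (∑ p ∈ range (2 * (N + 1) + 1), c p • (X ^ p * Y ^ (2 * (N + 1) - p))) * T) =
          ∑ p ∈ range (2 * (N + 1) + 1), (2 * 4 ^ N * c p) •
            ((-1) ^ (N + 1) * (X ^ p * Y ^ (2 * (N + 1) - p)) * T) := by
        rw [Finset.smul_sum, Finset.sum_mul, Finset.smul_sum]
        refine Finset.sum_congr rfl fun p _ => ?_
        simp only [Algebra.smul_def, map_mul, map_pow, map_neg, map_one, map_ofNat]
        ring
      rw [h6, ← LR_LZ, map_sum]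
      refine Finset.sum_congr rfl fun p _ => ?_
      rw [map_smul, smul_eq_mul]
    rw [e5]
    refine Finset.sum_nonneg fun p hp' => ?_
    refine mul_nonneg (mul_nonneg (by positivity) (hc p)) ?_
    rw [mem_range] at hp'
    have h7 := cone_mul (gram_pow hp hm (p := p) (q := 2 * (N + 1) - p) (N := N + 1) (by omega)) hTc
    rw [hN] at h7
    exact cone_LR h7

end Pool.Agent.R770.NS
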