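import Pool.Agent.R770.NS.Main
import Mathlib.RingTheory.Nilpotent.Basic

/-!
# Sharpness of the constant and the version with a norm bound
-/

set_option autoImplicit false

namespace Pool.Agent.R770.NS

open Pool.Agent.Y195.HF Pool.Agent.W666.GB Pool.Agent.W669.HD Finset

section nil

variable {R : Type} [CommRing R]

theorem sum_nil {ι : Type} [DecidableEq ι] (s : Finset ι) (f : ι → R) (h : ∀ i, f i ^ 2 = 0) :
    (∑ i ∈ s, f i) ^ (s.card + 1) = 0 := by
  induction s using Finset.induction_on with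
  | empty => simp
  | insert a s ha ih =>
    rw [sum_insert ha, card_insert_of_notMem ha]
    exact (Commute.all _ _).add_pow_eq_zero_of_add_le_succ_of_pow_eq_zero (h a) ih (by omega)

theorem pow_two_nil {G x y : R} (hx : x ^ 2 = 0) (hy : y ^ 2 = 0) {n : ℕ}
    (hG : G ^ (n + 1) = 0) :
    (G + (x + y)) ^ (n + 2) = ((n + 2) * (n + 1) : R) * (x * y * G ^ n) := by
  have hxy : (x + y) ^ 2 = 2 * (x * y) := by linear_combination hx + hy
  have hxy3 : ∀ k, 3 ≤ k → (x + y) ^ k = 0 := by
    intro k hk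
    obtain ⟨j, rfl⟩ := Nat.exists_eq_add_of_le hk
    have : (x + y) ^ 3 = 0 := by
      have : (x + y) ^ 3 = 2 * (x ^ 2 * y + x * y ^ 2) := by
        rw [pow_succ, hxy]; ring
      rw [this, hx, hy]; ring
    rw [pow_add, this, zero_mul]
  have hG' : ∀ k, n + 1 ≤ k → G ^ k = 0 := by
    intro k hk
    obtain ⟨j, rfl⟩ := Nat.exists_eq_add_of_le hk
    rw [pow_add, hG, zero_mul]
  rw [add_pow, Finset.sum_eq_single n]
  · have h1 : n + 2 - n = 2 := by omega
    rw [h1, hxy]
    have h2 : ((n + 2).choose n : R) * 2 = (n + 2) * (n + 1) := by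
      have h3 : (n + 2).choose n = (n + 2).choose 2 := by
        rw [← Nat.choose_symm_of_eq_add (show n + 2 = n + 2 by rfl)]
      have h4 : (n + 2).choose 2 * 2 = (n + 2) * (n + 1) := by
        rw [Nat.choose_two_right]
        have h5 : 2 ∣ (n + 2) * (n + 2 - 1) := (Nat.even_mul_pred_self (n + 2)).two_dvd
        rw [Nat.div_mul_cancel h5]
        rfl
      rw [h3]
      exact_mod_cast congrArg (Nat.cast (R := R)) h4
    linear_combination (x * y * G ^ n) * h2
  · intro k hk hkn
    rcases lt_or_gt_of_ne hkn with h | h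
    · rw [hxy3 _ (by omega)]; ring
    · rw [hG' k (by omega)]; ring
  · intro h
    exact absurd (mem_range.mpr (by omega)) h

end nil

variable {m : ℕ}

/-- diagonal elements -/
noncomputable def sd (z : Fin m × Bool) : Zc (I2 m → ℂ) := bv (th m false z) (th m true z)

theorem bv_sq {M : Type} [AddCommGroup M] [Module ℂ M] (u v : M) : bv u v ^ 2 = 0 := by
  rw [sq, bv_exch, bv_self, zero_mul, neg_zero]

theorem ff_diag (d : Fin m × Bool → ℂ) :
    ff false true (fun i j => if i = j then d i else 0 : Mt m) = ∑ z, d z • sd z := by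
  unfold ff sd
  refine Finset.sum_congr rfl fun i _ => ?_
  rw [Finset.sum_eq_single i]
  · beta_reduce
    rw [if_pos rfl]
  · intro j _ hj
    beta_reduce
    rw [if_neg (Ne.symm hj), zero_smul]
  · intro h
    exact absurd (mem_univ i) h

/-- the diagonal real matrix -/
def dg (d : Fin m × Bool → ℝ) : Fin m × Bool → Fin m × Bool → ℝ := fun i j => if i = j then d i else 0

theorem cm_dg (d : Fin m × Bool → ℝ) :
    cm (dg d) = (fun i j => if i = j then (d i : ℂ) else 0 : Mt m) := by
  funext i j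
  simp only [cm, dg]
  split_ifs <;> simp

theorem eL_kR' (h : Fin m × Bool → Fin m × Bool → ℝ) :
    eL (cx (kR h)) = (-2 : ℝ) • ff false true (cm h) ^ 2 := by
  rw [eL_kR, ← Complex.coe_smul]
  push_cast
  rfl

/-- the sum of all diagonal elements but two -/
theorem gg_split {x y : Fin m × Bool} (hxy : x ≠ y) :
    (∑ z, sd z : Zc (I2 m → ℂ)) = (∑ z ∈ (univ.erase x).erase y, sd z) + (sd x + sd y) := by
  rw [← Finset.add_sum_erase univ _ (mem_univ x), ← Finset.add_sum_erase (univ.erase x) _
    (mem_erase.mpr ⟨Ne.symm hxy, mem_univ y⟩)]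
  ring

/-- Value of the Gauss–Bonnet–Chern form of the unit tensor. -/
theorem LR_unit : LR m (((-2 : ℝ) • (∑ z, sd z) ^ 2) ^ m) = 2 ^ m * (2 * m).factorial := by
  have h1 := unit_gm (m := m) 1
  rw [gm_LR] at h1
  have h2 : (fun i j k l => 1 * unitCurv i j k l : T4 m) = kR (dg fun _ => 1) := by
    funext i j k l
    simp only [kR, dg, unitCurv]
    ring
  rw [h2, eL_kR', one_pow, one_mul, cm_dg, ff_diag] at h1
  simpa using h1

/-- The value for the product of a surface of curvature `t` and a sphere. -/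
theorem LR_prod (n : ℕ) {x y : Fin (n + 1) × Bool} (hxy : x ≠ y) (t : ℝ) :
    LR (n + 1) (((-2 : ℝ) • (∑ z ∈ (univ.erase x).erase y, sd z) ^ 2 +
      t • ((-2 : ℝ) • (sd x + sd y) ^ 2)) ^ (n + 1)) * (2 * n + 1) =
        t * (2 ^ (n + 1) * (2 * (n + 1)).factorial) := by
  set G : Zc (I2 (n + 1) → ℂ) := ∑ z ∈ (univ.erase x).erase y, sd z with hG
  have hcard : ((univ.erase x).erase y).card = 2 * n := by
    rw [card_erase_of_mem (mem_erase.mpr ⟨Ne.symm hxy, mem_univ y⟩), card_erase_of_mem (mem_univ x),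
      card_univ]
    simp
    omega
  have hG0 : G ^ (2 * n + 1) = 0 := by
    have := sum_nil ((univ.erase x).erase y) (fun z => (sd z : Zc (I2 (n + 1) → ℂ)))
      (fun z => bv_sq _ _)
    rwa [hcard] at this
  have hx : (sd x : Zc (I2 (n + 1) → ℂ)) ^ 2 = 0 := bv_sq _ _
  have hy : (sd y : Zc (I2 (n + 1) → ℂ)) ^ 2 = 0 := bv_sq _ _
  have h1 := LR_unit (m := n + 1)
  rw [gg_split hxy, ← hG, smul_pow, ← pow_mul, show 2 * (n + 1) = 2 * n + 2 by ring,
    pow_two_nil hx hy hG0] at h1
  have hs : (sd x + sd y : Zc (I2 (n + 1) → ℂ)) ^ 2 = 2 * (sd x * sd y) := by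
    linear_combination hx + hy
  have h2 : ((-2 : ℝ) • G ^ 2 + t • ((-2 : ℝ) • (sd x + sd y) ^ 2)) ^ (n + 1) =
      ((n + 1 : ℕ) * (t * (-4)) * (-2) ^ n : ℝ) • (sd x * sd y * G ^ (2 * n)) := by
    have h3 : (-2 : ℝ) • G ^ 2 + t • ((-2 : ℝ) • (sd x + sd y) ^ 2) =
        (t * (-4)) • (sd x * sd y) + (-2 : ℝ) • G ^ 2 := by
      rw [hs]
      simp only [Algebra.smul_def, map_mul, map_neg, map_ofNat]
      ring
    rw [h3, add_pow, Finset.sum_eq_single 1]
    · rw [pow_one, Nat.add_sub_cancel, smul_pow, ← pow_mul, Nat.choose_one_right]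
      simp only [Algebra.smul_def, map_mul, map_neg, map_ofNat, map_natCast, map_pow]
      ring
    · intro k _ hk
      rcases Nat.lt_or_ge k 1 with h | h
      · have hk0 : k = 0 := by omega
        subst hk0
        have h0 : G ^ (2 * (n + 1)) = 0 := by
          rw [show 2 * (n + 1) = 2 * n + 1 + 1 by ring, pow_succ, hG0, zero_mul]
        have : ((-2 : ℝ) • G ^ 2) ^ (n + 1 - 0) = 0 := by
          rw [Nat.sub_zero, smul_pow, ← pow_mul, h0, smul_zero]
        rw [this, mul_zero, zero_mul]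
      · obtain ⟨j, rfl⟩ := Nat.exists_eq_add_of_le (show 2 ≤ k by omega)
        have : ((t * (-4)) • (sd x * sd y : Zc (I2 (n + 1) → ℂ))) ^ (2 + j) = 0 := by
          have h0 : (sd x * sd y : Zc (I2 (n + 1) → ℂ)) ^ (2 + j) = 0 := by
            rw [pow_add, mul_pow, hx, zero_mul, zero_mul]
          rw [smul_pow, h0, smul_zero]
        rw [this, zero_mul, zero_mul]
    · intro h
      exact absurd (mem_range.mpr (by omega)) h
  rw [h2, map_smul, smul_eq_mul]
  have h4 : (-2 : ℝ) ^ (n + 1) • ((((2 * n : ℕ) : Zc (I2 (n + 1) → ℂ)) + 2) *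
      (((2 * n : ℕ) : Zc (I2 (n + 1) → ℂ)) + 1) * (sd x * sd y * G ^ (2 * n))) =
      ((-2 : ℝ) ^ (n + 1) * ((2 * n + 2) * (2 * n + 1))) • (sd x * sd y * G ^ (2 * n)) := by
    simp only [Algebra.smul_def, map_mul, map_neg, map_ofNat, map_natCast, map_pow, map_add,
      map_one]
    push_cast
    ring
  rw [h4, map_smul, smul_eq_mul] at h1
  rw [show 2 * (n + 1) = 2 * n + 2 by ring, ← h1]
  push_cast
  ring

section forms

variable {V : Type} [NormedAddCommGroup V] [InnerProductSpace ℝ V]

/-- a bound for the norm -/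
theorem negSkew_of_norm {R : V → V → V → V → ℝ} {A : V → V → ℝ} {c l δ : ℝ} (hA : SkewForm A)
    (hl : 0 ≤ l) (hAl : ∀ x y, A x y ≤ l * (‖x‖ * ‖y‖))
    (hn : OpNonneg (negT (addT (addT R fun x y z w => (c * l ^ 2 + δ) * unitT x y z w)
      (negT (skewCurv A))))) : NegSkew c δ R := by
  refine ⟨A, fun x y => l * inner ℝ x y, hA, ⟨fun x x' y => by rw [inner_add_left]; ring,
    fun t x y => by rw [real_inner_smul_left]; ring, fun x y => by rw [real_inner_comm]⟩, ?_, ?_⟩
  · intro x y
    beta_reduce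
    rw [real_inner_self_eq_norm_sq, real_inner_self_eq_norm_sq]
    have h1 := hAl x y
    nlinarith [mul_nonneg hl (sq_nonneg (‖x‖ - ‖y‖))]
  · have h1 : (negT (addT (addT R fun x y z w => (c * l ^ 2 + δ) * unitT x y z w)
      (negT (skewCurv A)))) = negT (addT (addT (addT R fun x y z w => δ * unitT x y z w)
      fun x y z w => c * knSq (fun x y => l * inner ℝ x y) x y z w) (negT (skewCurv A))) := by
      funext x y z w
      simp only [negT, addT, unitT, knSq]
      ring
    rw [← h1]
    exact hn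

/-- inner product with a basis vector -/
theorem inner_basis' (e : OrthonormalBasis (Fin m × Bool) ℝ V) (i j : Fin m × Bool) :
    inner ℝ (e i) (e j) = if i = j then (1 : ℝ) else 0 :=
  (orthonormal_iff_ite.mp e.orthonormal) i j

/-- the form of a rank two projection -/
noncomputable def h2 (u v : V) (x y : V) : ℝ := inner ℝ u x * inner ℝ u y + inner ℝ v x * inner ℝ v y

/-- the skew form of a plane -/
noncomputable def a2 (u v : V) (x y : V) : ℝ := inner ℝ u x * inner ℝ v y - inner ℝ v x * inner ℝ u y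

theorem h2_symm (u v : V) : SymForm (h2 u v) :=
  ⟨fun x x' y => by simp only [h2, inner_add_right]; ring,
    fun t x y => by simp only [h2, real_inner_smul_right]; ring,
    fun x y => by simp only [h2]; ring⟩

theorem a2_skew (u v : V) : SkewForm (a2 u v) :=
  ⟨fun x x' y => by simp only [a2, inner_add_right]; ring,
    fun t x y => by simp only [a2, real_inner_smul_right]; ring,
    fun x y => by simp only [a2]; ring⟩

/-- the metric of the orthogonal complement -/
noncomputable def gw (u v : V) (x y : V) : ℝ := inner ℝ x y - h2 u v x y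

theorem gw_symm (u v : V) : SymForm (gw u v) :=
  ⟨fun x x' y => by simp only [gw, (h2_symm u v).add, inner_add_left]; ring,
    fun t x y => by simp only [gw, (h2_symm u v).smul, real_inner_smul_left]; ring,
    fun x y => by simp only [gw, (h2_symm u v).symm x y, real_inner_comm]⟩

theorem a2_le (u v x y : V) : 2 * a2 u v x y ≤ h2 u v x x + h2 u v y y := by
  simp only [a2, h2]
  nlinarith [sq_nonneg (inner ℝ u x - inner ℝ v y), sq_nonneg (inner ℝ v x + inner ℝ u y)]

theorem a2_sc (u v x y z w : V) : skewCurv (a2 u v) x y z w = 3 * knSq (h2 u v) x y z w := by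
  simp only [skewCurv, a2, knSq, h2]
  ring

/-- the tensor of the example: `-R` is the curvature tensor of the product of a surface of
curvature `c - 3` and a sphere -/
noncomputable def Rex (u v : V) (c : ℝ) (x y z w : V) : ℝ :=
  -(knSq (gw u v) x y z w + (c - 3) * knSq (h2 u v) x y z w)

theorem Rex_curv (u v : V) (c : ℝ) : AlgCurv (Rex u v c) :=
  neg_curv (add_curv (gw_symm u v).curv (smul_curv (h2_symm u v).curv (c - 3)))

theorem gw_expand (e : OrthonormalBasis (Fin m × Bool) ℝ V) {p q : Fin m × Bool} (hpq : p ≠ q)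
    (x y : V) : gw (e p) (e q) x y =
      ∑ z ∈ (univ.erase p).erase q, inner ℝ (e z) x * inner ℝ (e z) y := by
  have h1 : inner ℝ x y = ∑ z, inner ℝ (e z) x * inner ℝ (e z) y := by
    rw [← e.sum_inner_mul_inner x y]
    refine Finset.sum_congr rfl fun z _ => ?_
    rw [real_inner_comm]
  rw [gw, h1, h2, ← Finset.add_sum_erase univ _ (mem_univ p), ← Finset.add_sum_erase (univ.erase p)
    _ (mem_erase.mpr ⟨Ne.symm hpq, mem_univ q⟩)]
  ring

theorem kn_op {h : V → V → ℝ} {ι : Type} (s : Finset ι) (f : ι → V → ℝ)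
    (hf : ∀ x y, h x y = ∑ z ∈ s, f z x * f z y) : OpNonneg (knSq h) := by
  have h1 : ∀ x y z w, knSq h x y z w = (1 / 2) * ∑ a ∈ s, ∑ b ∈ s,
      (f a x * f b y - f b x * f a y) * (f a z * f b w - f b z * f a w) := by
    intro x y z w
    have e1 : h x z * h y w = ∑ a ∈ s, ∑ b ∈ s, (f a x * f a z) * (f b y * f b w) := by
      rw [hf, hf, Finset.sum_mul_sum]
    have e2 : h x w * h y z = ∑ a ∈ s, ∑ b ∈ s, (f a x * f a w) * (f b y * f b z) := by
      rw [hf, hf, Finset.sum_mul_sum]
    have e3 : h x z * h y w = ∑ a ∈ s, ∑ b ∈ s, (f b x * f b z) * (f a y * f a w) := by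
      rw [e1, Finset.sum_comm]
    have e4 : h x w * h y z = ∑ a ∈ s, ∑ b ∈ s, (f b x * f b w) * (f a y * f a z) := by
      rw [e2, Finset.sum_comm]
    have e5 : knSq h x y z w = (1 / 2) * ((h x z * h y w + h x z * h y w) -
        (h x w * h y z + h x w * h y z)) := by
      rw [knSq]; ring
    rw [e5]
    nth_rewrite 1 [e1]
    rw [e3]
    nth_rewrite 1 [e2]
    rw [e4, ← Finset.sum_add_distrib, ← Finset.sum_add_distrib, ← Finset.sum_sub_distrib]
    congr 1
    refine Finset.sum_congr rfl fun a _ => ?_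
    rw [← Finset.sum_add_distrib, ← Finset.sum_add_distrib, ← Finset.sum_sub_distrib]
    refine Finset.sum_congr rfl fun b _ => ?_
    ring
  intro n x y
  have h2 : ∑ i, ∑ j, knSq h (x i) (y i) (x j) (y j) = (1 / 2) * ∑ a ∈ s, ∑ b ∈ s,
      ∑ i, ∑ j, ((f a (x i) * f b (y i) - f b (x i) * f a (y i)) *
        (f a (x j) * f b (y j) - f b (x j) * f a (y j))) := by
    simp only [h1, ← Finset.mul_sum]
    congr 1
    rw [Finset.sum_congr rfl fun i _ => Finset.sum_comm]
    rw [Finset.sum_comm]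
    refine Finset.sum_congr rfl fun a _ => ?_
    rw [Finset.sum_congr rfl fun i _ => Finset.sum_comm]
    rw [Finset.sum_comm]
    refine Finset.sum_congr rfl fun b _ => Finset.sum_congr rfl fun i _ => ?_
    rw [Finset.mul_sum]
  rw [h2]
  refine mul_nonneg (by norm_num) (Finset.sum_nonneg fun a _ => Finset.sum_nonneg fun b _ => ?_)
  rw [← Finset.sum_mul_sum]
  exact mul_self_nonneg _

theorem Rex_neg (u v : V) (c : ℝ) (hk : OpNonneg (knSq (gw u v))) :
    NegSkew c 0 (Rex u v c) := by
  refine ⟨a2 u v, h2 u v, a2_skew u v, h2_symm u v, a2_le u v, ?_⟩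
  have h1 : negT (addT (addT (addT (Rex u v c) fun x y z w => 0 * unitT x y z w)
      fun x y z w => c * knSq (h2 u v) x y z w) (negT (skewCurv (a2 u v)))) =
      knSq (gw u v) := by
    funext x y z w
    simp only [negT, addT, Rex, a2_sc]
    ring
  rw [h1]
  exact hk

theorem sharp (e : OrthonormalBasis (Fin m × Bool) ℝ V) (hm : 1 ≤ m) {c : ℝ} (hc : c < 3) :
    ∃ R : V → V → V → V → ℝ, AlgCurv R ∧ NegSkew c 0 R ∧ (-1) ^ m * gbc e R < 0 := by
  classical
  obtain ⟨n, rfl⟩ : ∃ n, m = n + 1 := ⟨m - 1, by omega⟩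
  set p : Fin (n + 1) × Bool := (0, false) with hp
  set q : Fin (n + 1) × Bool := (0, true) with hq
  have hpq : p ≠ q := by simp [hp, hq]
  refine ⟨Rex (e p) (e q) c, Rex_curv _ _ _, Rex_neg _ _ _ (kn_op ((univ.erase p).erase q)
    (fun z x => inner ℝ (e z) x) (gw_expand e hpq)), ?_⟩
  rw [gbc_eq]
  have hπ := Real.pi_pos
  have hcst : 0 < 1 / ((8 * Real.pi) ^ (n + 1) * ((n + 1).factorial : ℝ)) := by positivity
  refine mul_neg_of_pos_of_neg hcst ?_
  have hk : (cp e (negT (Rex (e p) (e q) c)) : T4 (n + 1)) = fun i j k l =>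
      kR (dg fun z => if z = p ∨ z = q then 0 else 1) i j k l +
        (c - 3) * kR (dg fun z => if z = p ∨ z = q then 1 else 0) i j k l := by
    have g1 : ∀ i j : Fin (n + 1) × Bool, h2 (e p) (e q) (e i) (e j) =
        dg (fun z => if z = p ∨ z = q then 1 else 0) i j := by
      intro i j
      simp only [h2, dg, inner_basis']
      by_cases hi : p = i <;> by_cases hj : p = j <;> by_cases hi' : q = i <;>
        by_cases hj' : q = j <;> simp_all [eq_comm]
    have g2 : ∀ i j : Fin (n + 1) × Bool, gw (e p) (e q) (e i) (e j) =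
        dg (fun z => if z = p ∨ z = q then 0 else 1) i j := by
      intro i j
      rw [gw, g1]
      simp only [dg, inner_basis']
      by_cases hij : i = j <;> by_cases h : i = p ∨ i = q <;> simp [hij, h]
      · subst hij; simp [h]
      · subst hij; simp [h]
    funext i j k l
    simp only [cp, negT, Rex, knSq, kR, g1, g2]
    ring
  rw [hk]
  have hL : gm (fun _ : Fin (n + 1) => (fun i j k l =>
      kR (dg fun z => if z = p ∨ z = q then 0 else 1) i j k l +
        (c - 3) * kR (dg fun z => if z = p ∨ z = q then 1 else 0) i j k l : T4 (n + 1))) *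
        (2 * n + 1) = (c - 3) * (2 ^ (n + 1) * (2 * (n + 1)).factorial) := by
    rw [← LR_prod n hpq, gm_LR]
    have e1 : eL (cx (fun i j k l =>
        kR (dg fun z => if z = p ∨ z = q then 0 else 1) i j k l +
        (c - 3) * kR (dg fun z => if z = p ∨ z = q then 1 else 0) i j k l : T4 (n + 1))) =
        eL (cx (kR (dg fun z => if z = p ∨ z = q then 0 else 1))) +
          ((c - 3 : ℝ) : ℂ) • eL (cx (kR (dg fun z => if z = p ∨ z = q then 1 else 0))) := by
      rw [← eL_smul, ← eL_add]
      congr 1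
      funext i j k l
      simp only [cx]
      push_cast
      ring
    rw [e1, Complex.coe_smul, eL_kR', eL_kR', cm_dg, cm_dg, ff_diag, ff_diag]
    have e2 : (∑ z : Fin (n + 1) × Bool, ((if z = p ∨ z = q then (1 : ℝ) else 0 : ℝ) : ℂ) • sd z :
        Zc (I2 (n + 1) → ℂ)) = sd p + sd q := by
      rw [← Finset.add_sum_erase univ _ (mem_univ p), ← Finset.add_sum_erase (univ.erase p)
        _ (mem_erase.mpr ⟨Ne.symm hpq, mem_univ q⟩), Finset.sum_eq_zero]
      · simp
      · intro z hz
        rw [mem_erase, mem_erase] at hz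
        simp [hz.1, hz.2.1]
    have e3 : (∑ z : Fin (n + 1) × Bool, ((if z = p ∨ z = q then (0 : ℝ) else 1 : ℝ) : ℂ) • sd z :
        Zc (I2 (n + 1) → ℂ)) = ∑ z ∈ (univ.erase p).erase q, sd z := by
      rw [← Finset.add_sum_erase univ _ (mem_univ p), ← Finset.add_sum_erase (univ.erase p)
        _ (mem_erase.mpr ⟨Ne.symm hpq, mem_univ q⟩)]
      simp only [true_or, or_true, if_true, Complex.ofReal_zero, zero_smul, zero_add]
      refine Finset.sum_congr rfl fun z hz => ?_
      rw [mem_erase, mem_erase] at hz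
      simp [hz.1, hz.2.1]
    rw [e2, e3]
  have hpos : (0 : ℝ) < 2 ^ (n + 1) * (2 * (n + 1)).factorial := by positivity
  have hneg : (c - 3) * (2 ^ (n + 1) * ((2 * (n + 1)).factorial : ℝ)) < 0 :=
    mul_neg_of_neg_of_pos (by linarith) hpos
  rw [← hL] at hneg
  have h5 : (0 : ℝ) < 2 * n + 1 := by positivity
  by_contra hcon
  push Not at hcon
  have := mul_nonneg hcon h5.le
  linarith

end forms

end Pool.Agent.R770.NS
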